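import Pool.Agent.Q184.DP.Final
import Pool.Agent.Q176.DX.Exp

set_option autoImplicit false

/-!
# Exponential Orlicz norms and tails of the discrepancy function, `d ≥ 3`

Let `D(x) = ∑_{ξ_j ≤ x} w_j - M x_1 ⋯ x_d` be the discrepancy function of the points `ξ_j`, `d ≥ 3`,
let `B` be a box with `X = M vol(B) ≥ 16 · 4^d`, let `g_1, …, g_d` be measurable functions such that
`g_i` does not depend on the `i`-th variable and put `F = D - g_1 - … - g_d`. For every `α ≥ 2` the
tails of `F` on `B` cannot be as thin as `2 exp (-t^α)` at a scale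

`l < c (log X)^((d-1)/2) G^(1 - 2/α)`, `G = (log X)^(1/(2d)) / (log log X)^(1/2)`,

and the norm of `F` in `exp(L^α)(B)` is at least `c (log X)^((d-1)/2) G^(1 - 2/α)`, with `c` not
depending on `α`. So for `α > 2` the exponent of `log X` is `(d-1)/2 + (1 - 2/α)/(2d) > (d-1)/2`
(up to `log log`), and for `α → ∞` it tends to the exponent `(d-1)/2 + 1/(2d)` for the sup norm.
-/

namespace Pool.Agent.Results.MP_173de9_an.ExponentialOrliczModulo

open MeasureTheory Finset

/-- The discrepancy function `∑_j w_j χ[ξ_j ≤ x] - M x_1 ⋯ x_d` of the points `ξ_j` of `ℝ^d` with the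
weights `w_j` with respect to `M` times the Lebesgue measure. -/
noncomputable def disc {n d : ℕ} (w : Fin n → ℝ) (ξ : Fin n → Fin d → ℝ) (M : ℝ) (x : Fin d → ℝ) :
    ℝ :=
  ∑ j, (if ∀ i, ξ j i ≤ x i then w j else 0) - M * ∏ i, x i

/-- The volume `∏ (b_i - a_i)` of the box `[a, b]`. -/
noncomputable def vol {d : ℕ} (a b : Fin d → ℝ) : ℝ := ∏ i, (b i - a i)

/-- `IndepOf i g`: the function `g` does not depend on the `i`-th variable. -/
def IndepOf {d : ℕ} (i : Fin d) (g : (Fin d → ℝ) → ℝ) : Prop :=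
  ∀ (x : Fin d → ℝ) (t : ℝ), g (Function.update x i t) = g x

/-- The normalized Lebesgue measure of the box `[a, b]`. -/
noncomputable def boxMeas {d : ℕ} (a b : Fin d → ℝ) : Measure (Fin d → ℝ) :=
  (ENNReal.ofReal (vol a b))⁻¹ • volume.restrict (Set.Icc a b)

/-- The function `F` has tails `2 exp (-t^α)` at the scale `l` on the box `[a, b]`: for all `t > 0`,
`|F| > t l` holds on a part of the box of normalized measure at most `2 exp (-t^α)`. -/
def ThinTails {d : ℕ} (α l : ℝ) (a b : Fin d → ℝ) (F : (Fin d → ℝ) → ℝ) : Prop :=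
  ∀ t : ℝ, 0 < t → boxMeas a b {x | t * l < |F x|} ≤ ENNReal.ofReal (2 * Real.exp (-(t ^ α)))

/-- The (Luxemburg) norm of `F` in `exp(L^α)` on the box `[a, b]`: the infimum of all `l > 0` such that
the mean of `exp ((|F| / l)^α)` over the box is at most `2`. -/
noncomputable def expNorm {d : ℕ} (α : ℝ) (a b : Fin d → ℝ) (F : (Fin d → ℝ) → ℝ) : ENNReal :=
  ⨅ (l : ℝ) (_ : 0 < l)
    (_ : ∫⁻ x, ENNReal.ofReal (Real.exp ((|F x| / l) ^ α)) ∂(boxMeas a b) ≤ 2), ENNReal.ofReal l

/-- The number of the points `ξ_j` in the half-open box `(a, b]`. -/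
noncomputable def count {n d : ℕ} (ξ : Fin n → Fin d → ℝ) (a b : Fin d → ℝ) : ℕ :=
  Nat.card {j : Fin n // ∀ i, a i < ξ j i ∧ ξ j i ≤ b i}

/-- The growth factor `(log X)^(1/(2d)) / (log log X)^(1/2)`. -/
noncomputable def growth (d : ℕ) (X : ℝ) : ℝ :=
  (Real.log X) ^ (1 / (2 * (d : ℝ))) / (Real.log (Real.log X)) ^ (1 / 2 : ℝ)

theorem disc_eq {n d : ℕ} (w : Fin n → ℝ) (ξ : Fin n → Fin d → ℝ) (M : ℝ)
    (g : Fin d → (Fin d → ℝ) → ℝ) :
    (fun x => disc w ξ M x - ∑ i, g i x) = Q184.DL.FF univ w ξ M g := by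
  classical
  funext x
  unfold disc Q184.DL.FF H736R2.Lone.disc
  rw [← sub_eq_add_neg]

theorem disc_measurable {n d : ℕ} (w : Fin n → ℝ) (ξ : Fin n → Fin d → ℝ) (M : ℝ)
    (g : Fin d → (Fin d → ℝ) → ℝ) (hg : ∀ i, Measurable (g i)) :
    Measurable (fun x => disc w ξ M x - ∑ i, g i x) := by
  have h1 : Measurable (disc w ξ M) := by
    unfold disc
    apply Measurable.sub
    · apply Finset.measurable_sum
      intro j _
      apply Measurable.ite _ measurable_const measurable_const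
      have : {x : Fin d → ℝ | ∀ i, ξ j i ≤ x i} = ⋂ i, {x : Fin d → ℝ | ξ j i ≤ x i} := by
        ext x
        simp
      rw [this]
      exact MeasurableSet.iInter fun i => measurableSet_le measurable_const (measurable_pi_apply i)
    · exact measurable_const.mul (Finset.measurable_prod _ fun i _ => measurable_pi_apply i)
  exact h1.sub (Finset.measurable_sum _ fun i _ => hg i)

/-- The growth factor is bounded below. -/
theorem growth_ge (d : ℕ) (hd : 3 ≤ d) (X : ℝ) (hX : 16 * 4 ^ d ≤ X) :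
    1 / (d : ℝ) ≤ growth d X := by
  have hd0 : (3 : ℝ) ≤ (d : ℝ) := by exact_mod_cast hd
  have h4 : (1 : ℝ) ≤ 4 ^ d := one_le_pow₀ (by norm_num)
  have hX16 : (16 : ℝ) ≤ X := by nlinarith
  have he : Real.exp 1 < 16 := Real.exp_one_lt_d9.trans (by norm_num)
  have hlog : 1 < Real.log X := by
    rw [Real.lt_log_iff_exp_lt (by linarith)]
    linarith
  have hll : 0 < Real.log (Real.log X) := Real.log_pos hlog
  set y := Real.log X with hy
  have hy0 : 0 < y := by linarith
  have h1 : Real.log y ≤ y ^ (1 / (d : ℝ)) / (1 / (d : ℝ)) :=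
    Real.log_le_rpow_div hy0.le (by positivity)
  have h2 : (Real.log y) ^ (1 / 2 : ℝ) ≤ (d : ℝ) * y ^ (1 / (2 * (d : ℝ))) := by
    calc (Real.log y) ^ (1 / 2 : ℝ) ≤ (y ^ (1 / (d : ℝ)) / (1 / (d : ℝ))) ^ (1 / 2 : ℝ) := by
          gcongr
      _ = (y ^ (1 / (d : ℝ)) * (d : ℝ)) ^ (1 / 2 : ℝ) := by
          congr 1
          field_simp
      _ = y ^ (1 / (2 * (d : ℝ))) * (d : ℝ) ^ (1 / 2 : ℝ) := by
          rw [Real.mul_rpow (by positivity) (by positivity), ← Real.rpow_mul hy0.le]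
          congr 2
          field_simp
      _ ≤ y ^ (1 / (2 * (d : ℝ))) * (d : ℝ) ^ (1 : ℝ) := by
          gcongr
          · linarith
          · norm_num
      _ = (d : ℝ) * y ^ (1 / (2 * (d : ℝ))) := by
          rw [Real.rpow_one, mul_comm]
  unfold growth
  rw [← hy, div_le_div_iff₀ (by linarith) (by positivity), one_mul, mul_comm]
  exact h2

/-- The deduction for one function. -/
theorem deduce {d : ℕ} (hd : 3 ≤ d) (c : ℝ) (hc : 0 < c) (X : ℝ) (hX : 16 * 4 ^ d ≤ X)
    (a b : Fin d → ℝ) (F : (Fin d → ℝ) → ℝ) (hF : Measurable F)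
    (hlow : ∀ p : ENNReal, 1 ≤ p →
      ENNReal.ofReal (c * (Real.log X) ^ (((d : ℝ) - 1) / 2)) *
          min (p ^ (1 / 2 : ℝ)) (ENNReal.ofReal (growth d X)) ≤ eLpNorm F p (boxMeas a b)) :
    ∀ α : ℝ, 2 ≤ α →
      (∀ l : ℝ, 0 < l → ThinTails α l a b F →
        c / (2 * d) * (Real.log X) ^ (((d : ℝ) - 1) / 2) * (growth d X) ^ (1 - 2 / α) ≤ l) ∧
      ENNReal.ofReal (c / (2 * d) * (Real.log X) ^ (((d : ℝ) - 1) / 2) *
        (growth d X) ^ (1 - 2 / α)) ≤ expNorm α a b F := by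
  intro α hα
  have hd0 : (3 : ℝ) ≤ (d : ℝ) := by exact_mod_cast hd
  have h4 : (1 : ℝ) ≤ 4 ^ d := one_le_pow₀ (by norm_num)
  have hX16 : (16 : ℝ) ≤ X := by nlinarith
  have hlog : 0 ≤ Real.log X := Real.log_nonneg (by linarith)
  have hG := growth_ge d hd X hX
  have hd1 : 1 / (d : ℝ) ≤ 1 := by
    rw [div_le_one (by linarith)]
    linarith
  have key : ∀ l : ℝ, 0 < l → ThinTails α l a b F →
      c / (2 * d) * (Real.log X) ^ (((d : ℝ) - 1) / 2) * (growth d X) ^ (1 - 2 / α) ≤ l := by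
    intro l hl hT
    have h := Q176.DX.scale_ge (boxMeas a b) F hF (c * (Real.log X) ^ (((d : ℝ) - 1) / 2))
      (growth d X) (1 / (d : ℝ)) (by positivity) (by positivity) hd1 hG hlow α l hα hl hT
    refine le_trans (le_of_eq ?_) h
    field_simp
  refine ⟨key, ?_⟩
  unfold expNorm
  refine le_iInf fun l => le_iInf fun hl => le_iInf fun hE => ?_
  apply ENNReal.ofReal_le_ofReal
  exact key l hl fun t ht => Q176.DX.tail_of_exp (boxMeas a b) F hF α l (by linarith) hl hE t ht

/-- **Theorem.** Let `d ≥ 3`.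

(1) Weights one: there is `c > 0` such that for all points `ξ_1, …, ξ_n` of `ℝ^d` (any number), every
real `M`, every box `B = [a, b]` with `X = M vol(B) ≥ 16 · 4^d`, all measurable functions
`g_1, …, g_d` such that `g_i` does not depend on the `i`-th variable, and all real `α ≥ 2`, the
function `F = D - g_1 - … - g_d`, `D` the discrepancy function, has tails `2 exp (-t^α)` on `B` only at
scales `l ≥ c (log X)^((d-1)/2) (growth d X)^(1 - 2/α)`; and the norm of `F` in `exp(L^α)(B)` is at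
least `c (log X)^((d-1)/2) (growth d X)^(1 - 2/α)`.

(2) Arbitrary real weights: for every `K` there is `c > 0` such that the same holds for all weights
provided that at most `K X` of the points lie in `B`. -/
theorem result (d : ℕ) (hd : 3 ≤ d) :
    (∃ c : ℝ, 0 < c ∧ ∀ (n : ℕ) (ξ : Fin n → Fin d → ℝ) (M : ℝ) (a b : Fin d → ℝ),
      (∀ i, a i < b i) → 16 * 4 ^ d ≤ M * vol a b →
      ∀ g : Fin d → (Fin d → ℝ) → ℝ, (∀ i, Measurable (g i)) → (∀ i, IndepOf i (g i)) →
      ∀ α : ℝ, 2 ≤ α →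
        (∀ l : ℝ, 0 < l → ThinTails α l a b (fun x => disc (fun _ => 1) ξ M x - ∑ i, g i x) →
          c * (Real.log (M * vol a b)) ^ (((d : ℝ) - 1) / 2) *
            (growth d (M * vol a b)) ^ (1 - 2 / α) ≤ l) ∧
        ENNReal.ofReal (c * (Real.log (M * vol a b)) ^ (((d : ℝ) - 1) / 2) *
            (growth d (M * vol a b)) ^ (1 - 2 / α)) ≤
          expNorm α a b (fun x => disc (fun _ => 1) ξ M x - ∑ i, g i x)) ∧
    (∀ K : ℝ, ∃ c : ℝ, 0 < c ∧
      ∀ (n : ℕ) (w : Fin n → ℝ) (ξ : Fin n → Fin d → ℝ) (M : ℝ) (a b : Fin d → ℝ),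
      (∀ i, a i < b i) → 16 * 4 ^ d ≤ M * vol a b → (count ξ a b : ℝ) ≤ K * (M * vol a b) →
      ∀ g : Fin d → (Fin d → ℝ) → ℝ, (∀ i, Measurable (g i)) → (∀ i, IndepOf i (g i)) →
      ∀ α : ℝ, 2 ≤ α →
        (∀ l : ℝ, 0 < l → ThinTails α l a b (fun x => disc w ξ M x - ∑ i, g i x) →
          c * (Real.log (M * vol a b)) ^ (((d : ℝ) - 1) / 2) *
            (growth d (M * vol a b)) ^ (1 - 2 / α) ≤ l) ∧
        ENNReal.ofReal (c * (Real.log (M * vol a b)) ^ (((d : ℝ) - 1) / 2) *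
            (growth d (M * vol a b)) ^ (1 - 2 / α)) ≤
          expNorm α a b (fun x => disc w ξ M x - ∑ i, g i x)) := by
  classical
  have hd0 : (3 : ℝ) ≤ (d : ℝ) := by exact_mod_cast hd
  refine ⟨?_, fun K => ?_⟩
  · obtain ⟨c, hc, H⟩ := Q184.DP.final_oneq d hd
    refine ⟨c / (2 * d), by positivity, ?_⟩
    intro n ξ M a b hab hM g hg hi
    refine deduce hd c hc (M * vol a b) hM a b _ (disc_measurable _ ξ M g hg) ?_
    intro p hp
    rw [disc_eq]
    exact H M a b hab hM (Fin n) univ ξ g hg hi p hp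
  · obtain ⟨c, hc, H⟩ := Q184.DP.final_wq d hd K
    refine ⟨c / (2 * d), by positivity, ?_⟩
    intro n w ξ M a b hab hM hcount g hg hi
    refine deduce hd c hc (M * vol a b) hM a b _ (disc_measurable w ξ M g hg) ?_
    intro p hp
    rw [disc_eq]
    refine H M a b hab hM (Fin n) univ w ξ g ?_ hg hi p hp
    refine le_trans ?_ hcount
    apply Nat.cast_le.2
    unfold count
    rw [Nat.card_eq_fintype_card, Fintype.card_subtype]
    apply Finset.card_le_card
    intro j hj
    unfold Q184.DL.bxP at hj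
    simp only [Finset.mem_filter, Finset.mem_univ, true_and] at hj ⊢
    intro i
    refine ⟨hj.1 i, ?_⟩
    have h3 := hj.2 i
    linarith

end Pool.Agent.Results.MP_173de9_an.ExponentialOrliczModulo
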