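import Pool.Agent.Q166.SQ.Logs
import Pool.Agent.Results.MP_173de9_an.StarDiscLowerAllDim
import Pool.Agent.Results.MP_173de9_an.StarDiscUniformPower

set_option autoImplicit false

/-!
# Q1 for point sets in dimension `d + 1` and for infinite sequences in dimension `d`
-/

namespace Pool.Agent.Results.MP_173de9_an.InfiniteSequences

open MeasureTheory

/-- The local discrepancy `∏ x_j - (1/m) Σ_μ χ_{[0,x]}(ξ^μ)` of `m` points `ξ` at `x`. -/
noncomputable def localDisc {m d : ℕ} (ξ : Fin m → Fin d → ℝ) (x : Fin d → ℝ) : ℝ :=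
  ∏ j, x j - (1 / (m:ℝ)) * ∑ μ : Fin m, (Set.Icc (0 : Fin d → ℝ) x).indicator (fun _ => (1:ℝ)) (ξ μ)

/-- `D(ξ,m,d)_∞`: the `L_∞` norm of the local discrepancy over `[0,1]^d`. -/
noncomputable def starDisc {m d : ℕ} (ξ : Fin m → Fin d → ℝ) : ENNReal :=
  eLpNorm (localDisc ξ) ⊤ (volume.restrict (Set.Icc (0 : Fin d → ℝ) 1))

/-- `D(m,d)_∞`: the infimum over all `m`-point sets (repetitions allowed) in `[0,1]^d`. -/
noncomputable def optDisc (m d : ℕ) : ENNReal :=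
  ⨅ (ξ : Fin m → Fin d → ℝ) (_ : ∀ μ, ξ μ ∈ Set.Icc (0 : Fin d → ℝ) 1), starDisc ξ

/-- `ω` is a sequence in the cube `[0,1]^d`. -/
def InCube {d : ℕ} (ω : ℕ → Fin d → ℝ) : Prop := ∀ n, ω n ∈ Set.Icc (0 : Fin d → ℝ) 1

/-- the first `N` terms of a sequence -/
def firstTerms {d : ℕ} (ω : ℕ → Fin d → ℝ) (N : ℕ) : Fin N → Fin d → ℝ := fun i => ω i

/-- Regular growth: `F` is positive, non-decreasing on `n ≥ 2`, and passing from `n` to `n²`
multiplies it by a factor between `1 + ε` and `K`, for example `F n = (log n)^κ` with `κ > 0`. -/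
structure Regular (F : ℕ → ℝ) : Prop where
  pos : 0 < F 2
  mono : ∀ a b : ℕ, 2 ≤ a → a ≤ b → F a ≤ F b
  grow : ∃ ε : ℝ, 0 < ε ∧ ∀ n : ℕ, 2 ≤ n → (1 + ε) * F n ≤ F (n ^ 2)
  doub : ∃ K : ℝ, ∀ n : ℕ, 2 ≤ n → F (n ^ 2) ≤ K * F n

/-- **Q1 for point sets in dimension `d + 1` is the question for infinite sequences in dimension
`d`**, for upper and for lower bounds; and bounds for sequences: a power of the logarithm is saved
on `(log N)^d` for all `N` at the same time. -/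
theorem result :
    (∀ (d : ℕ) (F : ℕ → ℝ), Regular F →
      ((∃ C : ℝ, ∀ m : ℕ, 2 ≤ m → optDisc m (d + 1) ≤ ENNReal.ofReal (C * F m / m)) ↔
        ∃ ω : ℕ → Fin d → ℝ, InCube ω ∧ ∃ C : ℝ, ∀ N : ℕ, 2 ≤ N →
          starDisc (firstTerms ω N) ≤ ENNReal.ofReal (C * F N / N))) ∧
    (∀ (d : ℕ), 1 ≤ d → ∀ F : ℕ → ℝ,
      ((∃ c : ℝ, 0 < c ∧ ∀ m : ℕ, 2 ≤ m → ENNReal.ofReal (c * F m / m) ≤ optDisc m (d + 1)) ↔
        ∃ c : ℝ, 0 < c ∧ ∀ ω : ℕ → Fin d → ℝ, InCube ω → ∀ M : ℕ, 2 ≤ M →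
          ∃ N : ℕ, 1 ≤ N ∧ N ≤ M ∧
            ENNReal.ofReal (c * F M / N) ≤ starDisc (firstTerms ω N))) ∧
    (∀ d : ℕ, 2 ≤ d → ∃ ω : ℕ → Fin d → ℝ, InCube ω ∧ ∃ C : ℝ, ∀ N : ℕ, 3 ≤ N →
      starDisc (firstTerms ω N) ≤ ENNReal.ofReal
        (C * (Real.log N) ^ ((d : ℝ) - (if d = 2 then 1 / 14 else 1 / 8)) *
          (Real.log (Real.log N)) ^ 2 / N)) ∧
    (∀ d : ℕ, 2 ≤ d → ∃ c : ℝ, 0 < c ∧ ∀ ω : ℕ → Fin d → ℝ, InCube ω → ∀ M : ℕ, 3 ≤ M →
      ∃ N : ℕ, 1 ≤ N ∧ N ≤ M ∧ ENNReal.ofReal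
        (c * ((Real.log M) ^ ((d : ℝ) / 2 + 1 / (2 * ((d : ℝ) + 1))) /
          (Real.log (Real.log M)) ^ (1 / 2 : ℝ)) / N) ≤ starDisc (firstTerms ω N)) := by
  have hR : ∀ {F : ℕ → ℝ}, Regular F → Pool.Agent.Q166.SQ.Reg F := fun h =>
    ⟨h.pos, h.mono, h.grow, h.doub⟩
  refine ⟨fun d F hF => Pool.Agent.Q166.SQ.upper_iff d (hR hF),
    fun d hd F => Pool.Agent.Q166.SQ.lower_iff d hd F, ?_, ?_⟩
  · intro d hd
    set κ : ℝ := (d : ℝ) - (if d = 2 then 1 / 14 else 1 / 8) with hκ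
    have hκ0 : 0 < κ := by
      have : (2 : ℝ) ≤ d := by exact_mod_cast hd
      rw [hκ]
      split_ifs <;> linarith
    have hreg := Pool.Agent.Q166.SQ.reg_FL hκ0
    obtain ⟨C, hC, h⟩ := StarDiscUniformPower.result (d + 1) (by omega)
    have hup : ∃ C : ℝ, ∀ m : ℕ, 2 ≤ m → Pool.Agent.Q166.SQ.optD ⊤ m (d + 1) ≤
        ENNReal.ofReal (C * Pool.Agent.Q166.SQ.FL κ m / m) := by
      refine ⟨C + 2 / Pool.Agent.Q166.SQ.FL κ 2, fun m hm => ?_⟩
      have hm0 : (0 : ℝ) < m := by exact_mod_cast (by omega : 0 < m)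
      have hF2 := hreg.pos
      have hFm : Pool.Agent.Q166.SQ.FL κ 2 ≤ Pool.Agent.Q166.SQ.FL κ m := hreg.mono 2 m le_rfl hm
      rcases Nat.lt_or_ge m 3 with hlt | hge
      · obtain rfl : m = 2 := by omega
        refine (Pool.Agent.Q166.SQ.optD_le_one 2 (d + 1) (by norm_num)).trans
          (ENNReal.ofReal_le_ofReal ?_)
        apply div_le_div_of_nonneg_right _ hm0.le
        have : 2 / Pool.Agent.Q166.SQ.FL κ 2 * Pool.Agent.Q166.SQ.FL κ 2 = 2 := by field_simp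
        push_cast
        nlinarith
      · have h1 : Pool.Agent.Q166.SQ.optD ⊤ m (d + 1) ≤ _ := h m hge
        refine h1.trans (ENNReal.ofReal_le_ofReal ?_)
        apply div_le_div_of_nonneg_right _ hm0.le
        have h2 := Pool.Agent.Q166.SQ.le_FL κ hge
        have e : (((d + 1 : ℕ) : ℝ) - 1 - (if d + 1 = 3 then 1 / 14 else 1 / 8)) = κ := by
          rw [hκ]
          by_cases h3 : d = 2
          · rw [if_pos h3, if_pos (by omega)]
            push_cast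
            ring
          · rw [if_neg h3, if_neg (by omega)]
            push_cast
            ring
        rw [e, mul_assoc]
        have h3 : C * ((Real.log m) ^ κ * (Real.log (Real.log m)) ^ 2) ≤
            C * Pool.Agent.Q166.SQ.FL κ m := mul_le_mul_of_nonneg_left h2 hC.le
        have h4 : 0 ≤ 2 / Pool.Agent.Q166.SQ.FL κ 2 * Pool.Agent.Q166.SQ.FL κ m := by
          have := hF2.trans_le hFm
          positivity
        linarith
    obtain ⟨ω, hω, C', hC'⟩ := (Pool.Agent.Q166.SQ.upper_iff d hreg).1 hup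
    obtain ⟨K, hK, hK'⟩ := Pool.Agent.Q166.SQ.FL_le κ
    refine ⟨ω, hω, |C'| * K, fun N hN => ?_⟩
    have hN0 : (0 : ℝ) < N := by exact_mod_cast (by omega : 0 < N)
    refine (hC' N (by omega)).trans (ENNReal.ofReal_le_ofReal ?_)
    apply div_le_div_of_nonneg_right _ hN0.le
    have h1 := hK' N hN
    have h2 : 0 ≤ Pool.Agent.Q166.SQ.FL κ N := by
      have := hreg.mono 2 N le_rfl (by omega)
      linarith [hreg.pos]
    calc C' * Pool.Agent.Q166.SQ.FL κ N ≤ |C'| * Pool.Agent.Q166.SQ.FL κ N :=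
          mul_le_mul_of_nonneg_right (le_abs_self C') h2
      _ ≤ |C'| * (K * ((Real.log N) ^ κ * (Real.log (Real.log N)) ^ 2)) :=
          mul_le_mul_of_nonneg_left h1 (abs_nonneg _)
      _ = _ := by ring
  · intro d hd
    obtain ⟨c, hc, h⟩ := StarDiscLowerAllDim.result (d + 1) (by omega)
    set g : ℕ → ℝ := fun m => (Real.log m) ^ ((d : ℝ) / 2 + 1 / (2 * ((d : ℝ) + 1))) /
      (Real.log (Real.log m)) ^ (1 / 2 : ℝ) with hg
    have hlow : ∃ c : ℝ, 0 < c ∧ ∀ m : ℕ, 2 ≤ m →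
        ENNReal.ofReal (c * (if m < 3 then 0 else g m) / m) ≤
          Pool.Agent.Q166.SQ.optD ⊤ m (d + 1) := by
      refine ⟨c, hc, fun m hm => ?_⟩
      rcases Nat.lt_or_ge m 3 with hlt | hge
      · rw [if_pos hlt]
        simp
      · rw [if_neg (by omega)]
        refine le_trans (ENNReal.ofReal_le_ofReal (le_of_eq ?_)) (h m hge)
        simp only [hg]
        have e : (((d + 1 : ℕ) : ℝ) - 1) / 2 + 1 / (2 * ((d + 1 : ℕ) : ℝ)) =
            (d : ℝ) / 2 + 1 / (2 * ((d : ℝ) + 1)) := by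
          push_cast
          ring
        rw [e]
        ring
    obtain ⟨c', hc', h'⟩ := (Pool.Agent.Q166.SQ.lower_iff d (by omega) _).1 hlow
    refine ⟨c', hc', fun ω hω M hM => ?_⟩
    obtain ⟨N, hN1, hN2, h1⟩ := h' ω hω M (by omega)
    rw [if_neg (by omega)] at h1
    exact ⟨N, hN1, hN2, h1⟩

end Pool.Agent.Results.MP_173de9_an.InfiniteSequences
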