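import Pool.Agent.Q184.DP.Final

set_option autoImplicit false

/-!
# Large exponents and the sup norm modulo functions of fewer variables, in boxes of every size

Let `D(x) = ∑_{ξ_j ≤ x} w_j - M x_1 ⋯ x_d` be the discrepancy function of the points `ξ_j`, `d ≥ 3`.
In every box `B` with `X = M vol(B) ≥ 16 · 4^d` and for all measurable functions `g_1, …, g_d` such
that `g_i` does not depend on the `i`-th variable, the normalized `L_p` norm on `B` of
`D - g_1 - … - g_d` is at least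

`c (log X)^((d-1)/2) · min (√p, (log X)^(1/(2d)) / (log log X)^(1/2))`,  `1 ≤ p ≤ ∞`.
-/

namespace Pool.Agent.Results.MP_173de9_an.LargeExponentsModulo

open MeasureTheory Finset

/-- The discrepancy function `∑_j w_j χ[ξ_j ≤ x] - M x_1 ⋯ x_d` of the points `ξ_j` of `ℝ^d` with the
weights `w_j` with respect to `M` times the Lebesgue measure. -/
noncomputable def disc {n d : ℕ} (w : Fin n → ℝ) (ξ : Fin n → Fin d → ℝ) (M : ℝ) (x : Fin d → ℝ) :
    ℝ :=
  ∑ j, (if ∀ i, ξ j i ≤ x i then w j else 0) - M * ∏ i, x i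

/-- The volume `∏ (b_i - a_i)` of the box `[a, b]`. -/
noncomputable def vol {d : ℕ} (a b : Fin d → ℝ) : ℝ := ∏ i, (b i - a i)

/-- `IndepOf i g`: the function `g` does not depend on the `i`-th variable. -/
def IndepOf {d : ℕ} (i : Fin d) (g : (Fin d → ℝ) → ℝ) : Prop :=
  ∀ (x : Fin d → ℝ) (t : ℝ), g (Function.update x i t) = g x

/-- The normalized `L_p` norm on the box `[a, b]`:
`((1 / vol) ∫_[a,b] |F|^p)^(1/p)`, and the essential supremum of `|F|` on `[a, b]` if `p = ∞`. -/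
noncomputable def meanNorm {d : ℕ} (p : ENNReal) (a b : Fin d → ℝ) (F : (Fin d → ℝ) → ℝ) : ENNReal :=
  eLpNorm F p ((ENNReal.ofReal (vol a b))⁻¹ • volume.restrict (Set.Icc a b))

/-- The number of the points `ξ_j` in the half-open box `(a, b]`. -/
noncomputable def count {n d : ℕ} (ξ : Fin n → Fin d → ℝ) (a b : Fin d → ℝ) : ℕ :=
  Nat.card {j : Fin n // ∀ i, a i < ξ j i ∧ ξ j i ≤ b i}

/-- The growth factor `(log X)^(1/(2d)) / (log log X)^(1/2)`. -/
noncomputable def growth (d : ℕ) (X : ℝ) : ℝ :=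
  (Real.log X) ^ (1 / (2 * (d : ℝ))) / (Real.log (Real.log X)) ^ (1 / 2 : ℝ)

theorem disc_eq {n d : ℕ} (w : Fin n → ℝ) (ξ : Fin n → Fin d → ℝ) (M : ℝ)
    (g : Fin d → (Fin d → ℝ) → ℝ) :
    (fun x => disc w ξ M x - ∑ i, g i x) = Q184.DL.FF univ w ξ M g := by
  classical
  funext x
  unfold disc Q184.DL.FF H736R2.Lone.disc
  rw [← sub_eq_add_neg]

/-- **Theorem.** Let `d ≥ 3`.

(1) Weights one: there is `c > 0` such that for all points `ξ_1, …, ξ_n` of `ℝ^d` (any number), every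
real `M`, every box `B = [a, b]` with `X = M vol(B) ≥ 16 · 4^d`, all measurable functions
`g_1, …, g_d` such that `g_i` does not depend on the `i`-th variable, and all `1 ≤ p ≤ ∞`, the
normalized `L_p` norm on `B` of `D - g_1 - … - g_d`, `D` the discrepancy function, is at least
`c (log X)^((d-1)/2) min (√p, growth d X)`.

(2) Arbitrary real weights: for every `K` there is `c > 0` such that the same holds for all weights
provided that at most `K X` of the points lie in `B`. -/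
theorem result (d : ℕ) (hd : 3 ≤ d) :
    (∃ c : ℝ, 0 < c ∧ ∀ (n : ℕ) (ξ : Fin n → Fin d → ℝ) (M : ℝ) (a b : Fin d → ℝ),
      (∀ i, a i < b i) → 16 * 4 ^ d ≤ M * vol a b →
      ∀ g : Fin d → (Fin d → ℝ) → ℝ, (∀ i, Measurable (g i)) → (∀ i, IndepOf i (g i)) →
      ∀ p : ENNReal, 1 ≤ p →
        ENNReal.ofReal (c * (Real.log (M * vol a b)) ^ (((d : ℝ) - 1) / 2)) *
          min (p ^ (1 / 2 : ℝ)) (ENNReal.ofReal (growth d (M * vol a b))) ≤
            meanNorm p a b (fun x => disc (fun _ => 1) ξ M x - ∑ i, g i x)) ∧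
    (∀ K : ℝ, ∃ c : ℝ, 0 < c ∧
      ∀ (n : ℕ) (w : Fin n → ℝ) (ξ : Fin n → Fin d → ℝ) (M : ℝ) (a b : Fin d → ℝ),
      (∀ i, a i < b i) → 16 * 4 ^ d ≤ M * vol a b → (count ξ a b : ℝ) ≤ K * (M * vol a b) →
      ∀ g : Fin d → (Fin d → ℝ) → ℝ, (∀ i, Measurable (g i)) → (∀ i, IndepOf i (g i)) →
      ∀ p : ENNReal, 1 ≤ p →
        ENNReal.ofReal (c * (Real.log (M * vol a b)) ^ (((d : ℝ) - 1) / 2)) *
          min (p ^ (1 / 2 : ℝ)) (ENNReal.ofReal (growth d (M * vol a b))) ≤
            meanNorm p a b (fun x => disc w ξ M x - ∑ i, g i x)) := by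
  classical
  refine ⟨?_, fun K => ?_⟩
  · obtain ⟨c, hc, H⟩ := Q184.DP.final_oneq d hd
    refine ⟨c, hc, ?_⟩
    intro n ξ M a b hab hM g hg hi p hp
    rw [disc_eq]
    exact H M a b hab hM (Fin n) univ ξ g hg hi p hp
  · obtain ⟨c, hc, H⟩ := Q184.DP.final_wq d hd K
    refine ⟨c, hc, ?_⟩
    intro n w ξ M a b hab hM hcount g hg hi p hp
    rw [disc_eq]
    refine H M a b hab hM (Fin n) univ w ξ g ?_ hg hi p hp
    refine le_trans ?_ hcount
    apply Nat.cast_le.2
    unfold count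
    rw [Nat.card_eq_fintype_card, Fintype.card_subtype]
    apply Finset.card_le_card
    intro j hj
    unfold Q184.DL.bxP at hj
    simp only [Finset.mem_filter, Finset.mem_univ, true_and] at hj ⊢
    intro i
    refine ⟨hj.1 i, ?_⟩
    have h3 := hj.2 i
    linarith

end Pool.Agent.Results.MP_173de9_an.LargeExponentsModulo
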