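import Pool.Agent.Q184.DL.Fin

set_option autoImplicit false

/-!
# The discrepancy function modulo functions of fewer variables, in boxes of every size

Let `D(x) = ∑_{ξ_j ≤ x} w_j - M x_1 ⋯ x_d` be the discrepancy function of the points `ξ_j`.
In every box `B` whose expected number of points `X = M vol(B)` is at least `2 · 4^d`, and for all
measurable functions `g_1, …, g_d` such that `g_i` does not depend on the `i`-th variable,

`|D(x) - g_1(x) - … - g_d(x)| ≥ c (log X)^((d-1)/2)`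

holds on a subset of `B` of measure at least `κ vol(B)`; so the `L_1` distance on `B` of `D` from the
sums of functions of `d - 1` variables is at least `κ c (log X)^((d-1)/2) vol(B)`.
-/

namespace Pool.Agent.Results.MP_173de9_an.ModuloFewerVariables

open MeasureTheory Finset

/-- The discrepancy function `∑_j w_j χ[ξ_j ≤ x] - M x_1 ⋯ x_d` of the points `ξ_j` of `ℝ^d` with the
weights `w_j` with respect to `M` times the Lebesgue measure. -/
noncomputable def disc {n d : ℕ} (w : Fin n → ℝ) (ξ : Fin n → Fin d → ℝ) (M : ℝ) (x : Fin d → ℝ) :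
    ℝ :=
  ∑ j, (if ∀ i, ξ j i ≤ x i then w j else 0) - M * ∏ i, x i

/-- The volume `∏ (b_i - a_i)` of the box `[a, b]`. -/
noncomputable def vol {d : ℕ} (a b : Fin d → ℝ) : ℝ := ∏ i, (b i - a i)

/-- `IndepOf i g`: the function `g` does not depend on the `i`-th variable. -/
def IndepOf {d : ℕ} (i : Fin d) (g : (Fin d → ℝ) → ℝ) : Prop :=
  ∀ (x : Fin d → ℝ) (t : ℝ), g (Function.update x i t) = g x

/-- The measure of the set of the points `x` of the box `[a, b]` with `|F x| ≥ θ`. -/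
noncomputable def largeSet {d : ℕ} (a b : Fin d → ℝ) (F : (Fin d → ℝ) → ℝ) (θ : ℝ) : ENNReal :=
  volume {x : Fin d → ℝ | x ∈ Set.Icc a b ∧ θ ≤ |F x|}

/-- The `L_1` norm over the box `[a, b]`. -/
noncomputable def normOne {d : ℕ} (a b : Fin d → ℝ) (F : (Fin d → ℝ) → ℝ) : ENNReal :=
  ∫⁻ x in Set.Icc a b, ENNReal.ofReal |F x|

/-- The number of the points `ξ_j` in the half-open box `(a, b]`. -/
noncomputable def count {n d : ℕ} (ξ : Fin n → Fin d → ℝ) (a b : Fin d → ℝ) : ℕ :=
  Nat.card {j : Fin n // ∀ i, a i < ξ j i ∧ ξ j i ≤ b i}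

theorem disc_eq {n d : ℕ} (w : Fin n → ℝ) (ξ : Fin n → Fin d → ℝ) (M : ℝ)
    (g : Fin d → (Fin d → ℝ) → ℝ) (x : Fin d → ℝ) :
    disc w ξ M x - ∑ i, g i x = Q184.DL.FF univ w ξ M g x := by
  classical
  unfold disc Q184.DL.FF H736R2.Lone.disc
  rw [← sub_eq_add_neg]

theorem cheb {d : ℕ} (a b : Fin d → ℝ) (F : (Fin d → ℝ) → ℝ) (hF : Measurable F) (θ : ℝ) :
    ENNReal.ofReal θ * largeSet a b F θ ≤ normOne a b F := by
  unfold largeSet normOne
  have h1 := mul_meas_ge_le_lintegral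
    (μ := (volume : Measure (Fin d → ℝ)).restrict (Set.Icc a b))
    (f := fun x => ENNReal.ofReal |F x|) hF.abs.ennreal_ofReal (ENNReal.ofReal θ)
  refine le_trans (mul_le_mul_right ?_ _) h1
  have hmeas : MeasurableSet {x : Fin d → ℝ | ENNReal.ofReal θ ≤ ENNReal.ofReal |F x|} :=
    measurableSet_le measurable_const hF.abs.ennreal_ofReal
  rw [Measure.restrict_apply hmeas]
  apply measure_mono
  intro x hx
  exact ⟨ENNReal.ofReal_le_ofReal hx.2, hx.1⟩

/-- **Theorem.** For every `d ≥ 1` there is `κ > 0` such that the following holds.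

(1) Weights one: there is `c > 0` such that for all points `ξ_1, …, ξ_n` of `ℝ^d` (any number), every
real `M`, every box `B = [a, b]` with `M vol(B) ≥ 2 · 4^d` and all measurable functions `g_1, …, g_d`
such that `g_i` does not depend on the `i`-th variable, the function
`F = D - g_1 - … - g_d`, `D` the discrepancy function, satisfies
`|F| ≥ c (log (M vol(B)))^((d-1)/2)` on a subset of `B` of measure `≥ κ vol(B)`, and
`∫_B |F| ≥ κ c (log (M vol(B)))^((d-1)/2) vol(B)`.

(2) Arbitrary real weights: for every `K` there is `c > 0` such that the same holds for all weights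
provided that at most `K M vol(B)` of the points lie in `B`. -/
theorem result (d : ℕ) (hd : 1 ≤ d) : ∃ κ : ℝ, 0 < κ ∧
    (∃ c : ℝ, 0 < c ∧ ∀ (n : ℕ) (ξ : Fin n → Fin d → ℝ) (M : ℝ) (a b : Fin d → ℝ),
      (∀ i, a i < b i) → 2 * 4 ^ d ≤ M * vol a b →
      ∀ g : Fin d → (Fin d → ℝ) → ℝ, (∀ i, Measurable (g i)) → (∀ i, IndepOf i (g i)) →
        ENNReal.ofReal (κ * vol a b) ≤
          largeSet a b (fun x => disc (fun _ => 1) ξ M x - ∑ i, g i x)
            (c * (Real.log (M * vol a b)) ^ (((d : ℝ) - 1) / 2)) ∧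
        ENNReal.ofReal (κ * c * (Real.log (M * vol a b)) ^ (((d : ℝ) - 1) / 2) * vol a b) ≤
          normOne a b (fun x => disc (fun _ => 1) ξ M x - ∑ i, g i x)) ∧
    (∀ K : ℝ, ∃ c : ℝ, 0 < c ∧
      ∀ (n : ℕ) (w : Fin n → ℝ) (ξ : Fin n → Fin d → ℝ) (M : ℝ) (a b : Fin d → ℝ),
      (∀ i, a i < b i) → 2 * 4 ^ d ≤ M * vol a b → (count ξ a b : ℝ) ≤ K * (M * vol a b) →
      ∀ g : Fin d → (Fin d → ℝ) → ℝ, (∀ i, Measurable (g i)) → (∀ i, IndepOf i (g i)) →
        ENNReal.ofReal (κ * vol a b) ≤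
          largeSet a b (fun x => disc w ξ M x - ∑ i, g i x)
            (c * (Real.log (M * vol a b)) ^ (((d : ℝ) - 1) / 2)) ∧
        ENNReal.ofReal (κ * c * (Real.log (M * vol a b)) ^ (((d : ℝ) - 1) / 2) * vol a b) ≤
          normOne a b (fun x => disc w ξ M x - ∑ i, g i x)) := by
  classical
  obtain ⟨κ₁, hκ₁, c₁, hc₁, H₁⟩ := Q184.DL.final_one d hd
  obtain ⟨κ₂, hκ₂, H₂⟩ := Q184.DL.final_weighted d hd
  have hvol : ∀ a b : Fin d → ℝ, (∀ i, a i < b i) →
      volume (Set.Icc a b) = ENNReal.ofReal (vol a b) := by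
    intro a b hab
    rw [Real.volume_Icc_pi, vol, ENNReal.ofReal_prod_of_nonneg]
    intro i _
    linarith [hab i]
  have hvpos : ∀ a b : Fin d → ℝ, (∀ i, a i < b i) → 0 < vol a b := by
    intro a b hab
    exact Finset.prod_pos fun i _ => by linarith [hab i]
  have key : ∀ (κ' c : ℝ), min κ₁ κ₂ ≤ κ' → 0 < c → ∀ (n : ℕ) (w : Fin n → ℝ)
      (ξ : Fin n → Fin d → ℝ) (M : ℝ)
      (a b : Fin d → ℝ), (∀ i, a i < b i) → 2 * 4 ^ d ≤ M * vol a b →
      ∀ g : Fin d → (Fin d → ℝ) → ℝ, (∀ i, Measurable (g i)) →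
      ENNReal.ofReal κ' * volume (Set.Icc a b) ≤ volume {x | x ∈ Set.Icc a b ∧
          c * (Real.log (M * ∏ i, (b i - a i))) ^ (((d : ℝ) - 1) / 2) ≤
            |Q184.DL.FF univ w ξ M g x|} →
        ENNReal.ofReal (min κ₁ κ₂ * vol a b) ≤
          largeSet a b (fun x => disc w ξ M x - ∑ i, g i x)
            (c * (Real.log (M * vol a b)) ^ (((d : ℝ) - 1) / 2)) ∧
        ENNReal.ofReal (min κ₁ κ₂ * c * (Real.log (M * vol a b)) ^ (((d : ℝ) - 1) / 2) * vol a b) ≤
          normOne a b (fun x => disc w ξ M x - ∑ i, g i x) := by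
    intro κ' c hκ' hc n w ξ M a b hab hM g hg H
    have hv := hvpos a b hab
    have hfun : (fun x => disc w ξ M x - ∑ i, g i x) = Q184.DL.FF univ w ξ M g := by
      funext x
      exact disc_eq w ξ M g x
    have h1 : ENNReal.ofReal (min κ₁ κ₂ * vol a b) ≤
        largeSet a b (fun x => disc w ξ M x - ∑ i, g i x)
          (c * (Real.log (M * vol a b)) ^ (((d : ℝ) - 1) / 2)) := by
      rw [hfun]
      refine le_trans ?_ H
      rw [hvol a b hab, ← ENNReal.ofReal_mul' hv.le]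
      apply ENNReal.ofReal_le_ofReal
      exact mul_le_mul_of_nonneg_right hκ' hv.le
    refine ⟨h1, ?_⟩
    have h2 := cheb a b (fun x => disc w ξ M x - ∑ i, g i x)
      (by rw [hfun]; exact Q184.DL.measurable_FF univ w ξ M g hg)
      (c * (Real.log (M * vol a b)) ^ (((d : ℝ) - 1) / 2))
    refine le_trans ?_ h2
    have hlog : 0 ≤ (Real.log (M * vol a b)) ^ (((d : ℝ) - 1) / 2) := by
      apply Real.rpow_nonneg
      apply Real.log_nonneg
      have : (1 : ℝ) ≤ 4 ^ d := one_le_pow₀ (by norm_num)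
      linarith
    calc ENNReal.ofReal (min κ₁ κ₂ * c * (Real.log (M * vol a b)) ^ (((d : ℝ) - 1) / 2) * vol a b)
        = ENNReal.ofReal ((c * (Real.log (M * vol a b)) ^ (((d : ℝ) - 1) / 2)) *
            (min κ₁ κ₂ * vol a b)) := by
          congr 1
          ring
      _ = ENNReal.ofReal (c * (Real.log (M * vol a b)) ^ (((d : ℝ) - 1) / 2)) *
            ENNReal.ofReal (min κ₁ κ₂ * vol a b) := ENNReal.ofReal_mul (by positivity)
      _ ≤ _ := mul_le_mul_right h1 _
  refine ⟨min κ₁ κ₂, lt_min hκ₁ hκ₂, ⟨c₁, hc₁, ?_⟩, fun K => ?_⟩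
  · intro n ξ M a b hab hM g hg hi
    exact key κ₁ c₁ (min_le_left _ _) hc₁ n (fun _ => 1) ξ M a b hab hM g hg
      (H₁ M a b hab hM (Fin n) univ ξ g hg hi)
  · obtain ⟨c, hc, H⟩ := H₂ K
    refine ⟨c, hc, ?_⟩
    intro n w ξ M a b hab hM hcount g hg hi
    refine key κ₂ c (min_le_right _ _) hc n w ξ M a b hab hM g hg
      (H M a b hab hM (Fin n) univ w ξ g ?_ hg hi)
    refine le_trans ?_ hcount
    apply Nat.cast_le.2
    unfold count
    rw [Nat.card_eq_fintype_card, Fintype.card_subtype]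
    apply Finset.card_le_card
    intro j hj
    unfold Q184.DL.bxP at hj
    simp only [Finset.mem_filter, Finset.mem_univ, true_and] at hj ⊢
    intro i
    refine ⟨hj.1 i, ?_⟩
    have h3 := hj.2 i
    linarith

end Pool.Agent.Results.MP_173de9_an.ModuloFewerVariables
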